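import Pool.Agent.H24.Haar2

open MeasureTheory Filter Topology Finset
open scoped ENNReal

namespace Pool.Agent.Results.MP_8173ef_an.Cex

/-- Lebesgue measure on the unit square. -/
noncomputable def mu : Measure (ℝ × ℝ) :=
  volume.restrict (Set.Icc (0:ℝ) 1 ×ˢ Set.Icc (0:ℝ) 1)

/-- Rectangular partial sums (indices start at `0`). -/
def S (φ : ℕ → ℕ → ℝ × ℝ → ℝ) (a : ℕ → ℕ → ℝ) (m n : ℕ) (z : ℝ × ℝ) : ℝ :=
  ∑ i ∈ range (m + 1), ∑ k ∈ range (n + 1), a i k * φ i k z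

open Pool.Agent.H24.Haar2

lemma mu_eq : mu = nu.prod nu := by rw [mu, Measure.prod_restrict, Measure.volume_eq_prod]

instance : IsProbabilityMeasure mu := by rw [mu_eq]; infer_instance

def pos (K : ℕ → ℕ) (k r : ℕ) : ℕ := 2 ^ K k + (2 * r + 1) * 2 ^ (K k - (k + 1))

lemma pos_inj (K : ℕ → ℕ) (k : ℕ) {r s : ℕ} (h : pos K k r = pos K k s) : r = s := by
  have := Nat.eq_of_mul_eq_mul_right (Nat.two_pow_pos _) (Nat.add_left_cancel h)
  omega

def mn (K : ℕ → ℕ) (i k : ℕ) : Prop := ∃ r, r < 2 ^ k ∧ i = pos K k r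

open Classical in
noncomputable def F (K : ℕ → ℕ) (i k : ℕ) : ℝ → ℝ :=
  if h : mn K i k then hf k h.choose else fun _ => 1

open Classical in
noncomputable def e (K : ℕ → ℕ) (i k : ℕ) : ℕ := if mn K i k then 0 else Nat.pair i k + 1

noncomputable def phi (K : ℕ → ℕ) (i k : ℕ) (z : ℝ × ℝ) : ℝ := F K i k z.1 * g (e K i k) z.2

variable {K : ℕ → ℕ}

lemma F_pos {k r : ℕ} (hr : r < 2 ^ k) : F K (pos K k r) k = hf k r ∧ e K (pos K k r) k = 0 := by
  have h : mn K (pos K k r) k := ⟨r, hr, rfl⟩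
  rw [F, e, dif_pos h, if_pos h, ← pos_inj K k h.choose_spec.2]
  exact ⟨rfl, rfl⟩

lemma F_not {i k : ℕ} (h : ¬ mn K i k) : F K i k = (fun _ => 1) ∧ e K i k = Nat.pair i k + 1 := by
  rw [F, e, dif_neg h, if_neg h]; exact ⟨rfl, rfl⟩

lemma phi_meas (i k : ℕ) : Measurable (phi K i k) := by
  have : Measurable (F K i k) := by
    unfold F; split_ifs
    · exact hf_meas _ _
    · exact measurable_const
  exact (this.comp measurable_fst).mul ((g_meas _).comp measurable_snd)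

lemma phi_mem (i k : ℕ) : MemLp (phi K i k) 2 mu := by
  refine MemLp.of_bound (phi_meas i k).aestronglyMeasurable
    ((√(2 ^ k) + 1) * √(2 ^ (e K i k + 1))) (Eventually.of_forall fun z => ?_)
  rw [phi, norm_mul]
  refine mul_le_mul ?_ (g_bd _ _) (norm_nonneg _) (by positivity)
  unfold F; split_ifs
  · exact (hf_bd _ _ _).trans (by linarith)
  · simp

lemma phi_orth (i k j l : ℕ) :
    ∫ z, phi K i k z * phi K j l z ∂mu = if (i, k) = (j, l) then 1 else 0 := by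
  have : ∀ z : ℝ × ℝ, phi K i k z * phi K j l z =
      (fun x => F K i k x * F K j l x) z.1 * (fun y => g (e K i k) y * g (e K j l) y) z.2 := by
    intro z; simp only [phi]; ring
  simp only [this]
  rw [mu_eq, integral_prod_mul (fun x => F K i k x * F K j l x)
    (fun y => g (e K i k) y * g (e K j l) y), g_orth]
  by_cases h1 : mn K i k <;> by_cases h2 : mn K j l
  · obtain ⟨r, hr, rfl⟩ := h1
    obtain ⟨s, hs, rfl⟩ := h2
    rw [(F_pos hr).1, (F_pos hr).2, (F_pos hs).1, (F_pos hs).2, if_pos rfl, mul_one]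
    rcases lt_trichotomy k l with h | h | h
    · rw [hf_orth_lt h, if_neg (by simp [h.ne])]
    · subst h
      rw [hf_same k r s hr]
      by_cases h : r = s
      · simp [h]
      · rw [if_neg h, if_neg fun h' => h (pos_inj K k (congrArg Prod.fst h'))]
    · simp only [mul_comm (hf k r _)]
      rw [hf_orth_lt h, if_neg (by simp [h.ne'])]
  · obtain ⟨r, hr, rfl⟩ := h1
    rw [(F_pos hr).2, (F_not h2).2, if_neg (by omega), mul_zero, if_neg]
    intro h
    obtain ⟨rfl, rfl⟩ := Prod.mk.inj h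
    exact h2 ⟨r, hr, rfl⟩
  · obtain ⟨r, hr, rfl⟩ := h2
    rw [(F_pos hr).2, (F_not h1).2, if_neg (by omega), mul_zero, if_neg]
    intro h
    obtain ⟨rfl, rfl⟩ := Prod.mk.inj h
    exact h1 ⟨r, hr, rfl⟩
  · rw [(F_not h1).1, (F_not h1).2, (F_not h2).1, (F_not h2).2]
    simp [Nat.pair_eq_pair]

lemma phi_ne {i k : ℕ} {z : ℝ × ℝ} (h : phi K i k z ≠ 0) :
    (z.2 ∈ Y 0 ∧ i = pos K k (d k z.1)) ∨ z.2 ∈ Y (Nat.pair i k + 1) := by
  have h2 := g_ne (right_ne_zero_of_mul h)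
  by_cases h1 : mn K i k
  · obtain ⟨r, hr, rfl⟩ := h1
    have h3 := left_ne_zero_of_mul h
    rw [(F_pos hr).1] at h3
    rw [(F_pos hr).2] at h2
    refine Or.inl ⟨h2, ?_⟩
    by_contra hn
    exact h3 (by rw [hf, if_neg fun h' => hn (by rw [h'])]; simp)
  · rw [(F_not h1).2] at h2; exact Or.inr h2

lemma col_sq (b : ℕ → ℕ → ℝ) (s : Finset ℕ) (k : ℕ) (z : ℝ × ℝ) :
    (∑ i ∈ s, b i k * phi K i k z) ^ 2 ≤ ∑ i ∈ s, (b i k * phi K i k z) ^ 2 := by
  by_cases h : ∃ i ∈ s, phi K i k z ≠ 0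
  · obtain ⟨i, hi, h⟩ := h
    rw [Finset.sum_eq_single_of_mem i hi]
    · exact Finset.single_le_sum (f := fun i => (b i k * phi K i k z) ^ 2)
        (fun _ _ => sq_nonneg _) hi
    · intro j _ hj
      refine mul_eq_zero_of_right _ (by_contra fun h' => hj ?_)
      rcases phi_ne h with a | a <;> rcases phi_ne h' with b | b
      · rw [a.2, b.2]
      · have := Y_disj a.1 b; omega
      · have := Y_disj a b.1; omega
      · exact (Nat.pair_eq_pair.mp (Nat.succ_injective (Y_disj b a))).1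
  · push Not at h
    rw [Finset.sum_eq_zero fun i hi => by rw [h i hi, mul_zero]]
    simpa using Finset.sum_nonneg fun _ _ => sq_nonneg _

lemma growth (b : ℕ → ℕ → ℝ) (hb : Summable fun p : ℕ × ℕ => b p.1 p.2 ^ 2) :
    ∀ᵐ z ∂mu, ∃ C, ∀ m n, |S (phi K) b m n z| ≤ C * √((n:ℝ) + 1) := by
  have hi : ∀ p : ℕ × ℕ, Integrable (fun z => (b p.1 p.2 * phi K p.1 p.2 z) ^ 2) mu := fun p =>
    ((phi_mem p.1 p.2).const_mul _).integrable_sq
  have h1 : ∀ p : ℕ × ℕ, ∫⁻ z, ENNReal.ofReal ((b p.1 p.2 * phi K p.1 p.2 z) ^ 2) ∂mu =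
      ENNReal.ofReal (b p.1 p.2 ^ 2) := by
    intro p
    rw [← ofReal_integral_eq_lintegral_ofReal (hi p) (Eventually.of_forall fun _ => sq_nonneg _)]
    congr 1
    have := phi_orth (K := K) p.1 p.2 p.1 p.2
    rw [if_pos rfl] at this
    simp only [mul_pow, integral_const_mul, sq (phi K _ _ _), this, mul_one]
  have hm : ∀ p : ℕ × ℕ, Measurable fun z => ENNReal.ofReal ((b p.1 p.2 * phi K p.1 p.2 z) ^ 2) :=
    fun p => (((phi_meas _ _).const_mul _).pow_const 2).ennreal_ofReal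
  have h2 : ∫⁻ z, ∑' p : ℕ × ℕ, ENNReal.ofReal ((b p.1 p.2 * phi K p.1 p.2 z) ^ 2) ∂mu ≠ ∞ := by
    rw [lintegral_tsum fun p => (hm p).aemeasurable]
    simp only [h1]
    rw [← ENNReal.ofReal_tsum_of_nonneg (fun _ => sq_nonneg _) hb]
    exact ENNReal.ofReal_ne_top
  filter_upwards [ae_lt_top (Measurable.tsum hm) h2] with z hz
  obtain ⟨W, hW⟩ : ∃ W : ℝ, ∀ s : Finset (ℕ × ℕ),
      ∑ p ∈ s, (b p.1 p.2 * phi K p.1 p.2 z) ^ 2 ≤ W := by
    refine ⟨_, fun s => (ENNReal.ofReal_le_iff_le_toReal hz.ne).mp ?_⟩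
    rw [ENNReal.ofReal_sum_of_nonneg fun _ _ => sq_nonneg _]
    exact ENNReal.sum_le_tsum s
  refine ⟨√W, fun m n => ?_⟩
  rw [← Real.sqrt_mul ((Finset.sum_nonneg fun _ _ => sq_nonneg _).trans (hW ∅))]
  refine Real.abs_le_sqrt ?_
  rw [S, Finset.sum_comm]
  refine (sq_sum_le_card_mul_sum_sq).trans ?_
  rw [Finset.card_range, mul_comm]
  push_cast
  refine mul_le_mul_of_nonneg_right ?_ (by positivity)
  refine (Finset.sum_le_sum fun k _ => col_sq b _ k z).trans ?_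
  rw [Finset.sum_comm, ← Finset.sum_product']
  exact hW _

open Classical in
noncomputable def co (K : ℕ → ℕ) (γ : ℕ → ℝ) (i k : ℕ) : ℝ :=
  if mn K i k then γ k / √(2 ^ k) else 0

lemma co_sum (γ : ℕ → ℝ) (h : Summable fun k : ℕ => γ k ^ 2 * ((k:ℝ) + 1)) :
    Summable fun p : ℕ × ℕ => co K γ p.1 p.2 ^ 2 * ((p.2 : ℝ) + 1) := by
  have hs : ∀ k, HasSum (fun i => co K γ i k ^ 2 * ((k:ℝ) + 1)) (γ k ^ 2 * ((k:ℝ) + 1)) := by
    intro k
    have := hasSum_sum_of_ne_finset_zero (L := SummationFilter.unconditional ℕ)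
      (f := fun i => co K γ i k ^ 2 * ((k:ℝ) + 1))
      (s := (range (2 ^ k)).image (pos K k)) (fun i hi => by
        rw [co, if_neg]
        · simp
        · rintro ⟨r, hr, rfl⟩
          exact hi (Finset.mem_image_of_mem _ (Finset.mem_range.mpr hr)))
    rw [Finset.sum_image fun _ _ _ _ h => pos_inj K k h, Finset.sum_congr rfl
      (g := fun _ => γ k ^ 2 / 2 ^ k * ((k:ℝ) + 1)) (fun r hr => by
        rw [co, if_pos ⟨r, Finset.mem_range.mp hr, rfl⟩, div_pow, Real.sq_sqrt (by positivity)]),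
      Finset.sum_const, Finset.card_range, nsmul_eq_mul] at this
    refine (congrArg (HasSum _) ?_).mp this
    push_cast; field_simp
  refine Summable.prod_symm (f := fun p : ℕ × ℕ => co K γ p.2 p.1 ^ 2 * ((p.1 : ℝ) + 1)) ?_
  refine (summable_prod_of_nonneg fun p => by positivity).mpr ⟨fun k => (hs k).summable, ?_⟩
  simpa only [(hs _).tsum_eq] using h

lemma col_val (γ : ℕ → ℝ) (m k : ℕ) (z : ℝ × ℝ) (h1 : z.1 ∈ Set.Ico (0:ℝ) 1) (h2 : z.2 ∈ Y 0) :
    ∑ i ∈ range (m + 1), co K γ i k * phi K i k z =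
      if pos K k (d k z.1) ≤ m then γ k * sg (d (k + 1) z.1) * √2 else 0 := by
  have hz : ∀ i, i ≠ pos K k (d k z.1) → co K γ i k * phi K i k z = 0 := by
    intro i hi
    refine mul_eq_zero_of_right _ (by_contra fun h => ?_)
    rcases phi_ne h with a | a
    · exact hi a.2
    · have := Y_disj h2 a; omega
  split_ifs with h
  · rw [Finset.sum_eq_single_of_mem _ (Finset.mem_range.mpr (Nat.lt_succ_of_le h))
      fun i _ hi => hz i hi, co, if_pos ⟨_, d_lt k h1, rfl⟩, phi, (F_pos (d_lt k h1)).1,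
      (F_pos (d_lt k h1)).2, hf, if_pos rfl, g, Set.indicator_of_mem h2]
    have : (0:ℝ) < √(2 ^ k) := by positivity
    field_simp
    norm_num
  · exact Finset.sum_eq_zero fun i hi => hz i fun h' => h (by
      have := Finset.mem_range.mp hi; omega)

lemma diff_val (γ : ℕ → ℝ) (a b : ℕ) (hab : a < b) (hK1 : ∀ k, k < a → k < K k ∧ K k < b)
    (hK2 : ∀ k, a ≤ k → k < b → K k = b) (z : ℝ × ℝ) (h1 : z.1 ∈ Set.Ico (0:ℝ) 1)
    (h2 : z.2 ∈ Y 0) : S (phi K) (co K γ) (2 ^ b + d b z.1) (b - 1) z -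
      S (phi K) (co K γ) (2 ^ b) (b - 1) z =
      (∑ k ∈ Finset.Ico a b, γ k * ((1 + sg (d (k + 1) z.1)) / 2)) * √2 := by
  rw [S, S, Finset.sum_comm, Finset.sum_comm (s := range (2 ^ b + 1)), ← Finset.sum_sub_distrib,
    show b - 1 + 1 = b by omega, Finset.sum_mul, Finset.range_eq_Ico b,
    ← Finset.sum_Ico_consecutive _ (Nat.zero_le a) hab.le, Finset.sum_eq_zero, zero_add]
  · refine Finset.sum_congr rfl fun k hk => ?_
    obtain ⟨k1, k2⟩ := Finset.mem_Ico.mp hk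
    have hp := Nat.two_pow_pos (b - (k + 1))
    rw [col_val γ _ k z h1 h2, col_val γ _ k z h1 h2, pos, hK2 k k1 k2,
      if_neg (by nlinarith : ¬ 2 ^ b + (2 * d k z.1 + 1) * 2 ^ (b - (k + 1)) ≤ 2 ^ b), sub_zero]
    have e1 := d_div (Nat.le_succ k) z.1
    rw [show k.succ - k = 1 by omega, pow_one] at e1
    simp only [add_le_add_iff_left, ← Nat.le_div_iff_mul_le hp, d_div (show k + 1 ≤ b from k2)]
    unfold sg
    by_cases h : d (k + 1) z.1 % 2 = 1
    · rw [if_pos h, if_pos (by simp only [Nat.succ_eq_add_one] at e1; omega)]; ring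
    · rw [if_neg h, if_neg (by simp only [Nat.succ_eq_add_one] at e1; omega)]; ring
  · intro k hk
    obtain ⟨k1, k2⟩ := hK1 k (Finset.mem_Ico.mp hk).2
    have h3 : pos K k (d k z.1) ≤ 2 ^ b := by
      have a1 := d_lt k h1
      have a2 : 2 ^ K k = 2 * 2 ^ k * 2 ^ (K k - (k + 1)) := by
        rw [← pow_succ', ← pow_add]; congr 1; omega
      have a3 : (2 * d k z.1 + 1) * 2 ^ (K k - (k + 1)) ≤ 2 ^ K k := by
        rw [a2]; exact Nat.mul_le_mul_right _ (by omega)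
      have a4 : 2 ^ (K k + 1) ≤ 2 ^ b := Nat.pow_le_pow_right (by norm_num) k2
      rw [pow_succ] at a4
      unfold pos; omega
    rw [col_val γ _ k z h1 h2, col_val γ _ k z h1 h2, if_pos h3, if_pos (by omega), sub_self]

lemma big (γ : ℕ → ℝ) (s : Finset ℕ) (h0 : ∀ k, 0 ≤ γ k) (h1 : ∑ k ∈ s, γ k = 1) :
    MeasurableSet {x | 1 / 4 ≤ ∑ k ∈ s, γ k * ((1 + sg (d (k + 1) x)) / 2)} ∧
    ENNReal.ofReal (1 / 4) ≤ nu {x | 1 / 4 ≤ ∑ k ∈ s, γ k * ((1 + sg (d (k + 1) x)) / 2)} := by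
  have m1 : ∀ k, Measurable fun x => sg (d (k + 1) x) := fun k =>
    (measurable_from_nat (f := sg)).comp (d_meas _)
  have i1 : ∀ k, Integrable (fun x => sg (d (k + 1) x)) nu := fun k =>
    Integrable.of_bound (m1 k).aestronglyMeasurable 1 (Eventually.of_forall fun x => by
      unfold sg; split_ifs <;> simp)
  have i2 : ∀ k, Integrable (fun x => γ k * ((1 + sg (d (k + 1) x)) / 2)) nu := fun k =>
    (((integrable_const 1).add (i1 k)).div_const 2).const_mul _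
  have hm : MeasurableSet {x | 1 / 4 ≤ ∑ k ∈ s, γ k * ((1 + sg (d (k + 1) x)) / 2)} :=
    measurableSet_le measurable_const (Finset.measurable_sum _ fun k _ =>
      (((m1 k).const_add 1).div_const 2).const_mul _)
  refine ⟨hm, (ENNReal.ofReal_le_iff_le_toReal (measure_ne_top _ _)).mpr ?_⟩
  have e1 : ∫ x, ∑ k ∈ s, γ k * ((1 + sg (d (k + 1) x)) / 2) ∂nu = 1 / 2 := by
    rw [integral_finsetSum _ fun k _ => i2 k, show (1 / 2 : ℝ) = ∑ k ∈ s, γ k / 2 by
      rw [← Finset.sum_div, h1]]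
    refine Finset.sum_congr rfl fun k _ => ?_
    have := int_sg k fun _ => 1
    simp only [one_mul] at this
    rw [integral_const_mul, integral_div, integral_add (integrable_const 1) (i1 k), this]
    simp [div_eq_mul_inv]
  generalize hA : {x | 1 / 4 ≤ ∑ k ∈ s, γ k * ((1 + sg (d (k + 1) x)) / 2)} = A at hm ⊢
  have e2 : ∫ x, ∑ k ∈ s, γ k * ((1 + sg (d (k + 1) x)) / 2) ∂nu ≤
      ∫ x, (1 / 4 + A.indicator (fun _ => (1:ℝ)) x) ∂nu := by
    refine integral_mono (integrable_finsetSum _ fun k _ => i2 k)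
      ((integrable_const _).add ((integrable_const _).indicator hm)) fun x => ?_
    by_cases hx : x ∈ A
    · have : ∑ k ∈ s, γ k * ((1 + sg (d (k + 1) x)) / 2) ≤ ∑ k ∈ s, γ k :=
        Finset.sum_le_sum fun k _ => mul_le_of_le_one_right (h0 k) (by
          unfold sg; split_ifs <;> norm_num)
      simp only [Set.indicator_of_mem hx]; linarith
    · simp only [Set.indicator_of_notMem hx, add_zero]
      rw [← hA] at hx
      exact (not_le.mp hx).le
  rw [e1, integral_add (integrable_const _) ((integrable_const _).indicator hm),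
    integral_indicator_const _ hm] at e2
  simp only [integral_const, probReal_univ, smul_eq_mul, mul_one, one_mul] at e2
  rw [← Measure.real]; linarith

theorem result : ∃ (lam : ℕ → ℕ → ℝ) (φ : ℕ → ℕ → ℝ × ℝ → ℝ) (a : ℕ → ℕ → ℝ),
    (∀ i k, 0 < lam i k) ∧ (∀ i k, lam i k ≤ lam (i + 1) k) ∧ (∀ i k, lam i k ≤ lam i (k + 1)) ∧
    Tendsto (fun p : ℕ × ℕ => lam p.1 p.2) atTop atTop ∧
    (∀ i k, 0 ≤ lam (i + 1) (k + 1) - lam (i + 1) k - lam i (k + 1) + lam i k) ∧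
    (∀ i k, MemLp (φ i k) 2 mu) ∧
    (∀ i k j l, ∫ z, φ i k z * φ j l z ∂mu = if (i, k) = (j, l) then 1 else 0) ∧
    (∀ b : ℕ → ℕ → ℝ, (Summable fun p : ℕ × ℕ => b p.1 p.2 ^ 2) →
      ∀ᵐ z ∂mu, ∃ C, ∀ m n, |S φ b m n z| ≤ C * √(lam m n)) ∧
    (Summable fun p : ℕ × ℕ => a p.1 p.2 ^ 2 * lam p.1 p.2) ∧
    ∃ B, MeasurableSet B ∧ 0 < mu B ∧
      ∀ z ∈ B, ¬ ∃ L, Tendsto (fun p : ℕ × ℕ => S φ a p.1 p.2 z) atTop (𝓝 L) := by
  obtain ⟨p, p0, pm, ph⟩ := blocks
  obtain ⟨bl, hbl⟩ := blk p p0 pm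
  obtain ⟨H, hH⟩ : ∃ H : ℕ → ℝ, H = fun j => ∑ k ∈ Finset.Ico (p j) (p (j + 1)), 1 / ((k:ℝ) + 1) :=
    ⟨_, rfl⟩
  have H1 : ∀ j, (2:ℝ) ^ j ≤ H j := fun j => by rw [hH]; exact ph j
  have H0 : ∀ j, 0 < H j := fun j => lt_of_lt_of_le (by positivity) (H1 j)
  obtain ⟨γ, hγ⟩ : ∃ γ : ℕ → ℝ, γ = fun k : ℕ => 1 / ((k:ℝ) + 1) / H (bl k) := ⟨_, rfl⟩
  have γ0 : ∀ k, 0 ≤ γ k := fun k => by rw [hγ]; have := H0 (bl k); positivity
  have γ1 : ∀ j, ∑ k ∈ Finset.Ico (p j) (p (j + 1)), γ k = 1 := by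
    intro j
    rw [Finset.sum_congr rfl (g := fun k : ℕ => 1 / ((k:ℝ) + 1) / H j) fun k hk => by
      rw [hγ, ← (hbl k j).mpr (Finset.mem_Ico.mp hk)], ← Finset.sum_div]
    have := H0 j
    rw [div_eq_one_iff_eq this.ne', hH]
  have γ2 : ∀ J, ∑ k ∈ range (p J), γ k ^ 2 * ((k:ℝ) + 1) ≤ ∑ j ∈ range J, (1 / 2 : ℝ) ^ j := by
    intro J
    induction J with
    | zero => simp [p0]
    | succ J ih =>
      rw [Finset.sum_range_succ, Finset.range_eq_Ico,
        ← Finset.sum_Ico_consecutive _ (Nat.zero_le (p J)) (pm (Nat.lt_succ_self J)).le,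
        ← Finset.range_eq_Ico]
      refine add_le_add ih ?_
      rw [Finset.sum_congr rfl (g := fun k : ℕ => γ k / H J) fun k hk => by
        rw [hγ, ← (hbl k J).mpr (Finset.mem_Ico.mp hk)]
        have := H0 (bl k)
        field_simp, ← Finset.sum_div, γ1, one_div_pow]
      exact one_div_le_one_div_of_le (by positivity) (H1 J)
  have γ3 : Summable fun k : ℕ => γ k ^ 2 * ((k:ℝ) + 1) :=
    summable_of_sum_range_le (c := 2) (fun _ => by positivity) fun n =>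
      (Finset.sum_le_sum_of_subset_of_nonneg (Finset.range_subset_range.mpr (pm.id_le n))
        fun _ _ _ => by positivity).trans ((γ2 n).trans (sum_geometric_two_le n))
  refine ⟨fun _ k => (k:ℝ) + 1, phi fun k => p (bl k + 1), co (fun k => p (bl k + 1)) γ,
    fun _ _ => by positivity, fun _ _ => le_rfl, fun _ _ => by push_cast; linarith, ?_,
    fun _ _ => by simp, phi_mem, phi_orth, growth, co_sum γ γ3, ?_⟩
  · refine tendsto_atTop_add_const_right _ _ (tendsto_natCast_atTop_atTop.comp ?_)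
    rw [← prod_atTop_atTop_eq]; exact tendsto_snd
  obtain ⟨A, hA⟩ : ∃ A : ℕ → Set ℝ, A = fun j => {x | 1 / 4 ≤
    ∑ k ∈ Finset.Ico (p j) (p (j + 1)), γ k * ((1 + sg (d (k + 1) x)) / 2)} := ⟨_, rfl⟩
  have A1 : ∀ j, MeasurableSet (A j) := fun j => by rw [hA]; exact (big γ _ γ0 (γ1 j)).1
  have A2 : ∀ j, ENNReal.ofReal (1 / 4) ≤ nu (A j) := fun j => by
    rw [hA]; exact (big γ _ γ0 (γ1 j)).2
  have U1 : ∀ n, MeasurableSet (⋃ j ∈ Set.Ici n, A j) := fun n =>
    MeasurableSet.biUnion (Set.to_countable _) fun j _ => A1 j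
  refine ⟨((⋂ n, ⋃ j ∈ Set.Ici n, A j) ∩ Set.Ico 0 1) ×ˢ Y 0,
    ((MeasurableSet.iInter U1).inter measurableSet_Ico).prod measurableSet_Ioc, ?_, ?_⟩
  · rw [mu_eq, Measure.prod_prod, Y_meas, measure_inter_conull' ?_, Antitone.measure_iInter
      (fun m n h => Set.biUnion_subset_biUnion_left (Set.Ici_subset_Ici.mpr h))
      (fun n => (U1 n).nullMeasurableSet) ⟨0, measure_ne_top _ _⟩]
    · refine ENNReal.mul_pos (ne_of_gt (lt_of_lt_of_le (by simp : 0 < ENNReal.ofReal (1 / 4))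
        (le_iInf fun n => (A2 n).trans (measure_mono ?_)))) (by simp)
      exact Set.subset_biUnion_of_mem (u := A) (Set.mem_Ici.mpr le_rfl)
    · exact measure_mono_null (fun x hx => hx.2) ae_Ico
  · rintro z ⟨⟨z1, z2⟩, z3⟩ ⟨L, hL⟩
    have t1 : Tendsto (fun j => p (j + 1)) atTop atTop :=
      pm.tendsto_atTop.comp (tendsto_add_atTop_nat 1)
    have t2 : Tendsto (fun j => 2 ^ p (j + 1)) atTop atTop :=
      (tendsto_pow_atTop_atTop_of_one_lt one_lt_two).comp t1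
    have t3 : Tendsto (fun j => p (j + 1) - 1) atTop atTop := (tendsto_sub_atTop_nat 1).comp t1
    have t4 : Tendsto (fun j => 2 ^ p (j + 1) + d (p (j + 1)) z.1) atTop atTop :=
      tendsto_atTop_mono (fun j => Nat.le_add_right _ _) t2
    rw [← prod_atTop_atTop_eq] at hL
    have t5 := (hL.comp (t4.prodMk t3)).sub (hL.comp (t2.prodMk t3))
    rw [sub_self] at t5
    obtain ⟨n, hn⟩ := eventually_atTop.mp (t5.eventually (gt_mem_nhds (by norm_num : (0:ℝ) < 1 / 4)))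
    obtain ⟨j, hj, hz⟩ := Set.mem_iUnion₂.mp (Set.mem_iInter.mp z1 n)
    have h1 := hn j hj
    simp only [Function.comp] at h1
    rw [diff_val γ (p j) (p (j + 1)) (pm (Nat.lt_succ_self j)) (fun k hk => ?_)
      (fun k h1 h2 => by rw [(hbl k j).mpr ⟨h1, h2⟩]) z z2 z3] at h1
    · rw [hA] at hz
      have h2 : (1:ℝ) ≤ √2 := Real.one_le_sqrt.mpr (by norm_num)
      have h3 : 1 / 4 ≤ ∑ k ∈ Finset.Ico (p j) (p (j + 1)),
        γ k * ((1 + sg (d (k + 1) z.1)) / 2) := hz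
      nlinarith
    · obtain ⟨a1, a2⟩ := (hbl k _).mp rfl
      have := pm.lt_iff_lt.mp (a1.trans_lt hk)
      exact ⟨a2, pm (by omega)⟩

end Pool.Agent.Results.MP_8173ef_an.Cex
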